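import Pool.Agent.H53.VK.Stm

/-!
# Crew VK, parts PA1 and PTR
-/

set_option autoImplicit false

namespace VK.H89

open VK

theorem ev_inj {t h : Fn} (hd : det t h ≠ 0) {z z' : Pt} (h1 : ev t z = ev t z')
    (h2 : ev h z = ev h z') : z = z' := by
  simp only [ev, det] at *
  have e1 : (t.a * h.b - t.b * h.a) * (z.1 - z'.1) = 0 := by
    linear_combination h.b * h1 - t.b * h2
  have e2 : (t.a * h.b - t.b * h.a) * (z.2 - z'.2) = 0 := by
    linear_combination t.a * h2 - h.a * h1
  have f1 := (mul_eq_zero.1 e1).resolve_left hd
  have f2 := (mul_eq_zero.1 e2).resolve_left hd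
  exact Prod.ext (by linarith) (by linarith)

theorem Nc_of_det {t h : Fn} (hd : det t h ≠ 0) : Nc h := by
  by_contra hcon
  simp only [Nc, not_or, not_not] at hcon
  apply hd
  simp [det, hcon.1, hcon.2]

noncomputable def ng (t : Fn) : Fn := ⟨-t.a, -t.b, -t.c⟩

theorem ev_ng (t : Fn) (z : Pt) : ev (ng t) z = - ev t z := by
  simp only [ev, ng]; ring

theorem det_ng (t h : Fn) : det (ng t) h = - det t h := by
  simp only [det, ng]; ring

/-- one sided run: `b` is the only `B` point of the line, all `A` points of the line are right of `b` -/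
theorem one_sided {A B : Finset Pt} {t g : Fn} {b : Pt} (hd : det t g ≠ 0) (hb : b ∈ B)
    (hsupp : ∀ z ∈ A ∪ B, 0 ≤ ev g z) (hgb : ev g b = 0)
    (hB : ∀ z ∈ B, ev g z = 0 → z = b)
    (hA : ∀ z ∈ A, ev g z = 0 → ev t b < ev t z) (hne : ∃ z ∈ A, ev g z = 0) :
    ∃ x, ER A B t g b x := by
  classical
  obtain ⟨z0, hz0, hz0'⟩ := hne
  obtain ⟨x, hx, hmin⟩ := Finset.exists_min_image (A.filter (fun z => ev g z = 0)) (fun z => ev t z)
    ⟨z0, Finset.mem_filter.2 ⟨hz0, hz0'⟩⟩
  rw [Finset.mem_filter] at hx
  refine ⟨x, hd, hb, hx.1, hsupp, hgb, hx.2, hA x hx.1 hx.2, ?_⟩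
  intro z hz hz0
  rcases Finset.mem_union.1 hz with hzA | hzB
  · right
    rcases (hmin z (Finset.mem_filter.2 ⟨hzA, hz0⟩)).eq_or_lt with he | hl
    · left; exact (ev_inj hd he (hx.2.trans hz0.symm)).symm
    · right; exact hl
  · left; exact hB z hzB hz0

end VK.H89

namespace VK

open VK.H89

theorem PA1_proved : PA1_stmt := by
  classical
  intro A B g hAB hg hsupp hB1 hA1
  obtain ⟨b, hb⟩ := Finset.card_eq_one.1 hB1
  have hbm : b ∈ B.filter (fun z => ev g z = 0) := by rw [hb]; exact Finset.mem_singleton_self b
  rw [Finset.mem_filter] at hbm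
  have hBonly : ∀ z ∈ B, ev g z = 0 → z = b := by
    intro z hz hz0
    have : z ∈ B.filter (fun z => ev g z = 0) := Finset.mem_filter.2 ⟨hz, hz0⟩
    rw [hb] at this
    exact Finset.mem_singleton.1 this
  have hAne : ∃ z ∈ A, ev g z = 0 := by
    have : (A.filter (fun z => ev g z = 0)).Nonempty := Finset.card_pos.1 (by omega)
    obtain ⟨z, hz⟩ := this
    rw [Finset.mem_filter] at hz
    exact ⟨z, hz.1, hz.2⟩
  let t : Fn := ⟨-g.b, g.a, g.b * b.1 - g.a * b.2⟩
  have htb : ev t b = 0 := by simp only [ev, t]; ring
  have hd : det t g ≠ 0 := by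
    simp only [det, t]
    intro h0
    have : g.a ^ 2 + g.b ^ 2 = 0 := by linarith
    have ha : g.a = 0 := by nlinarith [sq_nonneg g.a, sq_nonneg g.b]
    have hb' : g.b = 0 := by nlinarith [sq_nonneg g.a, sq_nonneg g.b]
    rcases hg with h | h
    · exact h ha
    · exact h hb'
  have hA0 : ∀ z ∈ A, ev g z = 0 → ev t z ≠ 0 := by
    intro z hz hz0 ht0
    have : z = b := ev_inj hd (ht0.trans htb.symm) (hz0.trans hbm.2.symm)
    subst this
    exact (Finset.disjoint_left.1 hAB hz) hbm.1
  by_cases hR : ∃ z ∈ A, ev g z = 0 ∧ 0 < ev t z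
  · by_cases hL : ∃ z ∈ A, ev g z = 0 ∧ ev t z < 0
    · -- inner isolated point
      right
      obtain ⟨z1, hz1, hz1g, hz1t⟩ := hR
      obtain ⟨z2, hz2, hz2g, hz2t⟩ := hL
      obtain ⟨x, hx, hxmin⟩ := Finset.exists_min_image
        (A.filter (fun z => ev g z = 0 ∧ 0 < ev t z)) (fun z => ev t z)
        ⟨z1, Finset.mem_filter.2 ⟨hz1, hz1g, hz1t⟩⟩
      obtain ⟨w, hw, hwmax⟩ := Finset.exists_max_image
        (A.filter (fun z => ev g z = 0 ∧ ev t z < 0)) (fun z => ev t z)
        ⟨z2, Finset.mem_filter.2 ⟨hz2, hz2g, hz2t⟩⟩
      have hx' := Finset.mem_filter.1 hx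
      have hw' := Finset.mem_filter.1 hw
      refine ⟨t, g, w, b, x, hd, hbm.1, hx'.1, hw'.1, hsupp, hbm.2, hx'.2.1, hw'.2.1, htb,
        hx'.2.2, hw'.2.2, ?_, ?_, ?_⟩
      · intro z hz hz0
        rcases Finset.mem_union.1 hz with hzA | hzB
        · rcases lt_trichotomy (ev t z) 0 with hlt | heq | hgt
          · rcases (hwmax z (Finset.mem_filter.2 ⟨hzA, hz0, hlt⟩)).eq_or_lt with he | hl
            · right; right; left; exact ev_inj hd he (hz0.trans hw'.2.1.symm)
            · right; right; right; right; exact hl
          · exact absurd heq (hA0 z hzA hz0)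
          · rcases (hxmin z (Finset.mem_filter.2 ⟨hzA, hz0, hgt⟩)).eq_or_lt with he | hl
            · right; left; exact (ev_inj hd he (hx'.2.1.trans hz0.symm)).symm
            · right; right; right; left; exact hl
        · left; exact hBonly z hzB hz0
      · have : B.filter (fun z => ev g z = 0 ∧ 0 < ev t z) = ∅ := by
          apply Finset.filter_eq_empty_iff.2
          rintro z hz ⟨hz0, hzt⟩
          rw [hBonly z hz hz0, htb] at hzt
          exact lt_irrefl _ hzt
        rw [this, Finset.card_empty, zero_add]
        exact Finset.card_pos.2 ⟨x, hx⟩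
      · have : B.filter (fun z => ev g z = 0 ∧ ev t z < 0) = ∅ := by
          apply Finset.filter_eq_empty_iff.2
          rintro z hz ⟨hz0, hzt⟩
          rw [hBonly z hz hz0, htb] at hzt
          exact lt_irrefl _ hzt
        rw [this, Finset.card_empty, zero_add]
        exact Finset.card_pos.2 ⟨w, hw⟩
    · left; left
      push Not at hL
      obtain ⟨x, hx⟩ := one_sided hd hbm.1 hsupp hbm.2 hBonly
        (fun z hz hz0 => by
          rw [htb]
          exact lt_of_le_of_ne (hL z hz hz0) (Ne.symm (hA0 z hz hz0))) hAne
      exact ⟨t, g, b, x, hx⟩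
  · left; left
    push Not at hR
    obtain ⟨x, hx⟩ := one_sided (t := ng t) (by rw [det_ng]; exact neg_ne_zero.2 hd) hbm.1 hsupp
      hbm.2 hBonly
      (fun z hz hz0 => by
        rw [ev_ng, ev_ng, htb]
        have := lt_of_le_of_ne (hR z hz hz0) (hA0 z hz hz0)
        linarith) hAne
    exact ⟨ng t, g, b, x, hx⟩

theorem PTR_proved : PTR_stmt := by
  classical
  intro A B t h v x hAB hyp er
  have hvA : v ∉ A := fun hv => (Finset.disjoint_left.1 hAB hv) er.hv
  have hxB : x ∉ B := fun hx => (Finset.disjoint_left.1 hAB er.hx) hx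
  set L := (((A ∪ B).filter (fun z => ev h z = 0)).erase v).erase x with hL
  have memL : ∀ z, z ∈ L ↔ z ≠ x ∧ z ≠ v ∧ (z ∈ A ∨ z ∈ B) ∧ ev h z = 0 := by
    intro z
    simp only [hL, Finset.mem_erase, Finset.mem_filter, Finset.mem_union]
  have ltx : ∀ z ∈ L, ev t x < ev t z := by
    intro z hz
    obtain ⟨h1, h2, h3, h4⟩ := (memL z).1 hz
    rcases er.rest z (Finset.mem_union.2 h3) h4 with h5 | h5 | h5
    · exact absurd h5 h2
    · exact absurd h5 h1
    · exact h5
  by_cases hLe : L.Nonempty
  · obtain ⟨y, hy, hymin⟩ := Finset.exists_min_image L (fun z => ev t z) hLe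
    obtain ⟨hyx, hyv, hyAB, hy0⟩ := (memL y).1 hy
    rcases hyAB with hyA | hyB
    · -- y ∈ A
      by_cases hL' : (L.erase y).Nonempty
      · obtain ⟨y', hy', hymin'⟩ := Finset.exists_min_image (L.erase y) (fun z => ev t z) hL'
        rw [Finset.mem_erase] at hy'
        obtain ⟨hyx', hyv', hyAB', hy0'⟩ := (memL y').1 hy'.2
        have hyy' : ev t y < ev t y' := by
          rcases (hymin y' hy'.2).eq_or_lt with he | hl
          · exact absurd (ev_inj er.fr he (hy0.trans hy0'.symm)).symm hy'.1
          · exact hl
        rcases hyAB' with hyA' | hyB'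
        · -- three A points
          right; right
          have h3 : 3 ≤ (A.filter (fun z => ev h z = 0)).card := by
            have hsub : ({x, y, y'} : Finset Pt) ⊆ A.filter (fun z => ev h z = 0) := by
              intro z hz
              simp only [Finset.mem_insert, Finset.mem_singleton] at hz
              rw [Finset.mem_filter]
              rcases hz with rfl | rfl | rfl
              · exact ⟨er.hx, er.zx⟩
              · exact ⟨hyA, hy0⟩
              · exact ⟨hyA', hy0'⟩
            have hc : ({x, y, y'} : Finset Pt).card = 3 := by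
              rw [Finset.card_insert_of_notMem, Finset.card_insert_of_notMem,
                Finset.card_singleton]
              · simp only [Finset.mem_singleton]; exact fun h => hy'.1 h.symm
              · simp only [Finset.mem_insert, Finset.mem_singleton, not_or]
                exact ⟨fun h => hyx h.symm, fun h => hyx' h.symm⟩
            rw [← hc]; exact Finset.card_le_card hsub
          rcases hyp h (Nc_of_det er.fr) with h2 | h2
          · omega
          · omega
        · right; left; right
          refine ⟨t, h, y, y', er.fr, ?_, ?_, ?_, hy0, hy0', hyy', ?_⟩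
          · rw [Finset.mem_erase]; exact ⟨hyx, hyA⟩
          · rw [Finset.mem_erase]; exact ⟨hyv', hyB'⟩
          · intro z hz
            simp only [Finset.mem_union, Finset.mem_erase] at hz
            apply er.supp
            rw [Finset.mem_union]
            tauto
          · intro z hz hz0
            simp only [Finset.mem_union, Finset.mem_erase] at hz
            have hzL : z ∈ L := by
              rw [memL]
              rcases hz with hz | hz
              · refine ⟨?_, hz.1, Or.inr hz.2, hz0⟩
                rintro rfl; exact hxB hz.2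
              · refine ⟨hz.1, ?_, Or.inl hz.2, hz0⟩
                rintro rfl; exact hvA hz.2
            by_cases hzy : z = y
            · left; exact hzy
            · right
              rcases (hymin' z (Finset.mem_erase.2 ⟨hzy, hzL⟩)).eq_or_lt with he | hl
              · left; exact (ev_inj er.fr he (hy0'.trans hz0.symm)).symm
              · right; exact hl
      · -- counts 1 ≤ 2
        right; right
        rw [Finset.not_nonempty_iff_eq_empty] at hL'
        have hBs : B.filter (fun z => ev h z = 0) ⊆ {v} := by
          intro z hz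
          rw [Finset.mem_filter] at hz
          rw [Finset.mem_singleton]
          by_contra hzv
          have hzL : z ∈ L.erase y := by
            rw [Finset.mem_erase, memL]
            refine ⟨?_, ?_, hzv, Or.inr hz.1, hz.2⟩
            · rintro rfl; exact (Finset.disjoint_left.1 hAB hyA) hz.1
            · rintro rfl; exact hxB hz.1
          rw [hL'] at hzL
          exact absurd hzL (Finset.notMem_empty _)
        calc (B.filter (fun z => ev h z = 0)).card ≤ ({v} : Finset Pt).card :=
              Finset.card_le_card hBs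
          _ = 1 := Finset.card_singleton _
          _ ≤ (A.filter (fun z => ev h z = 0)).card :=
              Finset.card_pos.2 ⟨x, Finset.mem_filter.2 ⟨er.hx, er.zx⟩⟩
    · left; right
      refine ⟨t, h, x, y, er.fr, er.hx, ?_, ?_, er.zx, hy0, ltx y hy, ?_⟩
      · rw [Finset.mem_erase]; exact ⟨hyv, hyB⟩
      · intro z hz
        simp only [Finset.mem_union, Finset.mem_erase] at hz
        apply er.supp
        rw [Finset.mem_union]
        tauto
      · intro z hz hz0
        simp only [Finset.mem_union, Finset.mem_erase] at hz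
        by_cases hzx : z = x
        · left; exact hzx
        · right
          have hzL : z ∈ L := by
            rw [memL]
            rcases hz with hz | hz
            · exact ⟨hzx, hz.1, Or.inr hz.2, hz0⟩
            · refine ⟨hzx, ?_, Or.inl hz, hz0⟩
              rintro rfl; exact hvA hz
          rcases (hymin z hzL).eq_or_lt with he | hl
          · left; exact (ev_inj er.fr he (hy0.trans hz0.symm)).symm
          · right; exact hl
  · right; right
    rw [Finset.not_nonempty_iff_eq_empty] at hLe
    have hBs : B.filter (fun z => ev h z = 0) ⊆ {v} := by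
      intro z hz
      rw [Finset.mem_filter] at hz
      rw [Finset.mem_singleton]
      by_contra hzv
      have hzL : z ∈ L := by
        rw [memL]
        refine ⟨?_, hzv, Or.inr hz.1, hz.2⟩
        rintro rfl; exact hxB hz.1
      rw [hLe] at hzL
      exact absurd hzL (Finset.notMem_empty _)
    calc (B.filter (fun z => ev h z = 0)).card ≤ ({v} : Finset Pt).card :=
          Finset.card_le_card hBs
      _ = 1 := Finset.card_singleton _
      _ ≤ (A.filter (fun z => ev h z = 0)).card :=
          Finset.card_pos.2 ⟨x, Finset.mem_filter.2 ⟨er.hx, er.zx⟩⟩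

end VK
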