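import Pool.Agent.H53.VK.Stm

/-!
# Crew VK, parts UPC (rotating ray with integer weights), PA1, PTR
-/

set_option autoImplicit false

namespace VK

theorem UPC_proved : UPC_stmt := by
  classical
  intro Z t h w k hh ht hk hk1
  set R : Finset ℝ := (Z.filter (fun z => 0 < ev h z)).image (fun z => ev t z / ev h z) with hR
  have memR : ∀ r, r ∈ R ↔ ∃ z ∈ Z, 0 < ev h z ∧ ev t z = r * ev h z := by
    intro r
    simp only [hR, Finset.mem_image, Finset.mem_filter]
    constructor
    · rintro ⟨z, ⟨hz, hp⟩, rfl⟩
      exact ⟨z, hz, hp, by field_simp⟩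
    · rintro ⟨z, hz, hp, he⟩
      exact ⟨z, ⟨hz, hp⟩, by rw [he]; field_simp⟩
  set G : ℝ → ℤ := fun s => ∑ z ∈ Z.filter (fun z => s * ev h z ≤ ev t z), w z with hG
  have hne : R.Nonempty := by
    by_contra hcon
    rw [Finset.not_nonempty_iff_eq_empty] at hcon
    have : Z.filter (fun z => ev h z = 0) = Z := by
      apply Finset.filter_true_of_mem
      intro z hz
      by_contra hz0
      have hp : 0 < ev h z := lt_of_le_of_ne (hh z hz) (Ne.symm hz0)
      have : ev t z / ev h z ∈ R := (memR _).2 ⟨z, hz, hp, by field_simp⟩
      rw [hcon] at this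
      exact absurd this (Finset.notMem_empty _)
    rw [this] at hk
    omega
  set R' := R.filter (fun s => k + 1 ≤ G s) with hR'
  have hne' : R'.Nonempty := by
    refine ⟨R.min' hne, ?_⟩
    rw [hR', Finset.mem_filter]
    refine ⟨Finset.min'_mem _ _, ?_⟩
    have : Z.filter (fun z => R.min' hne * ev h z ≤ ev t z) = Z := by
      apply Finset.filter_true_of_mem
      intro z hz
      rcases (hh z hz).eq_or_lt with h0 | hp
      · rw [← h0, mul_zero]; exact (ht z hz h0.symm).le
      · have h1 : R.min' hne ≤ ev t z / ev h z :=
          Finset.min'_le _ _ ((memR _).2 ⟨z, hz, hp, by field_simp⟩)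
        rwa [le_div_iff₀ hp] at h1
    simp only [hG]
    rw [this]; exact hk1
  set s := R'.max' hne' with hs
  have hsR' : s ∈ R' := Finset.max'_mem _ _
  have hsR : s ∈ R := (Finset.mem_filter.1 hsR').1
  have hsG : k + 1 ≤ G s := (Finset.mem_filter.1 hsR').2
  refine ⟨s, (memR s).1 hsR, ?_, hsG⟩
  by_cases hex : (R.filter (fun r => s < r)).Nonempty
  · set s' := (R.filter (fun r => s < r)).min' hex with hs'
    have hs'm : s' ∈ R.filter (fun r => s < r) := Finset.min'_mem _ _
    have hs'R : s' ∈ R := (Finset.mem_filter.1 hs'm).1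
    have hss' : s < s' := (Finset.mem_filter.1 hs'm).2
    have heq : Z.filter (fun z => s * ev h z < ev t z) =
        Z.filter (fun z => s' * ev h z ≤ ev t z) := by
      apply Finset.filter_congr
      intro z hz
      rcases (hh z hz).eq_or_lt with h0 | hp
      · rw [← h0, mul_zero, mul_zero]
        have := ht z hz h0.symm
        constructor <;> intro _ <;> linarith
      · constructor
        · intro hlt
          have h1 : s < ev t z / ev h z := by rwa [lt_div_iff₀ hp]
          have h2 : s' ≤ ev t z / ev h z := Finset.min'_le _ _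
            (Finset.mem_filter.2 ⟨(memR _).2 ⟨z, hz, hp, by field_simp⟩, h1⟩)
          rwa [le_div_iff₀ hp] at h2
        · intro hle
          nlinarith
    rw [heq]
    by_contra hcon
    push Not at hcon
    have h3 : s' ∈ R' := Finset.mem_filter.2 ⟨hs'R, by simp only [hG]; omega⟩
    have h4 := Finset.le_max' _ _ h3
    linarith
  · have heq : Z.filter (fun z => s * ev h z < ev t z) = Z.filter (fun z => ev h z = 0) := by
      apply Finset.filter_congr
      intro z hz
      rcases (hh z hz).eq_or_lt with h0 | hp
      · rw [← h0, mul_zero]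
        have := ht z hz h0.symm
        constructor
        · intro _; rfl
        · intro _; exact this
      · constructor
        · intro hlt
          exfalso
          apply hex
          have h1 : s < ev t z / ev h z := by rwa [lt_div_iff₀ hp]
          exact ⟨_, Finset.mem_filter.2 ⟨(memR _).2 ⟨z, hz, hp, by field_simp⟩, h1⟩⟩
        · intro h0
          exact absurd h0 hp.ne'
    rw [heq]; exact hk

end VK
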